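import Pool.Agent.K9h78.CC.Corson
import Pool.Agent.K9h78.CC.Forced

/-!
# MP_1c9258_gt: a negative answer is consistent

Q1 asks whether a compact space is Corson compact if the closures of its subsets of size at most
`𝔠` are. If `κ⁺`, `κ ≥ 𝔠`, has a nonreflecting stationary subset, then there is a compact space of
size at most `κ⁺` which answers Q1 in the negative; and some forcing notion adds no reals, preserves
`𝔠⁺` and adds a nonreflecting stationary subset of `𝔠⁺`.
-/

set_option autoImplicit false

namespace Pool.Agent.Results.MP_1c9258_gt.ConsistentNegative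

open Cardinal Pool.Agent.K9h78.CC Pool.Agent.W869.CC

theorem result :
    (∃ (P : Type) (_ : Preorder P), Nonempty P ∧ ∀ p : P, p ∈ ContinuumN P) ∧
    ∀ κ : Cardinal.{0}, 𝔠 ≤ κ → (∃ S : ZZ κ → Prop, NonRef S) →
      ∃ (X : Type) (_ : TopologicalSpace X) (_ : CompactSpace X) (_ : T2Space X),
        #X ≤ Order.succ κ ∧ SmallClosuresCorson X ∧ ¬ Corson X := by
  refine ⟨forced_continuum, ?_⟩
  rintro κ hκ ⟨S, hS⟩
  exact counterexample_of_not_reflectsAt hκ (not_reflectsAt_of_nonRef hκ hS)

end Pool.Agent.Results.MP_1c9258_gt.ConsistentNegative
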