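import Pool.Agent.K9h78.CC.Equiv

/-!
# MP_1c9258_gt: Q1 below the first singular cardinal above `𝔠`

Q1 asks whether a compact space is Corson compact if the closures of its subsets of size at most
`𝔠` are. `ReflectsAt κ` is a combinatorial statement about families of sequences attached to the
points of a stationary subset of `κ⁺`. If `ReflectsAt κ` fails, where `κ ≥ 𝔠`, then there is a
compact space of size at most `κ⁺` which answers Q1 in the negative. For each `n`, the answer to Q1
is positive for all the spaces of size at most the `n`-th successor of `𝔠` if and only if it is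
positive for all the spaces with a dense subset of that size, and if and only if `ReflectsAt κ`
holds for the `n` cardinals `κ = 𝔠, 𝔠⁺, …`.
-/

set_option autoImplicit false

namespace Pool.Agent.Results.MP_1c9258_gt.LadderReflection

open Cardinal Pool.Agent.K9h78.CC

theorem result :
    (∀ κ : Cardinal.{0}, 𝔠 ≤ κ → ¬ ReflectsAt κ →
      ∃ (X : Type) (_ : TopologicalSpace X) (_ : CompactSpace X) (_ : T2Space X),
        #X ≤ Order.succ κ ∧ SmallClosuresCorson X ∧ ¬ Corson X) ∧
    ∀ n : ℕ,
      ((∀ (X : Type) [TopologicalSpace X] [CompactSpace X] [T2Space X],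
          #X ≤ Order.succ^[n] 𝔠 → SmallClosuresCorson X → Corson X) ↔
        ∀ k < n, ReflectsAt (Order.succ^[k] 𝔠)) ∧
      ((∀ (X : Type) [TopologicalSpace X] [CompactSpace X] [T2Space X] (A : Set X),
          Dense A → #A ≤ Order.succ^[n] 𝔠 → SmallClosuresCorson X → Corson X) ↔
        ∀ k < n, ReflectsAt (Order.succ^[k] 𝔠)) := by
  refine ⟨fun κ hκ h => counterexample_of_not_reflectsAt hκ h, fun n => ?_⟩
  have h1 : (∀ (X : Type) [TopologicalSpace X] [CompactSpace X] [T2Space X] (A : Set X),
        Dense A → #A ≤ Order.succ^[n] 𝔠 → SmallClosuresCorson X → Corson X) →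
      ∀ (X : Type) [TopologicalSpace X] [CompactSpace X] [T2Space X],
        #X ≤ Order.succ^[n] 𝔠 → SmallClosuresCorson X → Corson X := by
    intro h X _ _ _ hX
    exact h X Set.univ dense_univ (by rwa [mk_univ])
  refine ⟨⟨fun h => reflects_of_sizeUpTo h, fun h => h1 (upTo_of_reflects h)⟩,
    fun h => reflects_of_sizeUpTo (h1 h), fun h => upTo_of_reflects h⟩

end Pool.Agent.Results.MP_1c9258_gt.LadderReflection
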