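import Pool.Agent.K9h78.CC.Rp2

/-!
# MP_1c9258_gt: a positive answer from stationary reflection

Q1 asks whether a compact space is Corson compact if the closures of its subsets of size at most
`𝔠` are. The answer is positive under a principle of reflection of stationary sets of countable
sets to sets of size at most `𝔠`.
-/

set_option autoImplicit false

namespace Pool.Agent.Results.MP_1c9258_gt.ReflectionPositive

open Cardinal Pool.Agent.K9h78.CC

theorem result (h : StationaryReflection) (X : Type) [TopologicalSpace X] [CompactSpace X]
    [T2Space X] (hX : SmallClosuresCorson X) : Corson X :=
  corson_of_reflection h X hX

end Pool.Agent.Results.MP_1c9258_gt.ReflectionPositive
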